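import Pool.Agent.Helper65.LT.Pc

/-!
PROJECT LT (MP_274814), block F4-F6, piece P13a: branch bookkeeping.
-/

namespace Pool.Agent.Helper60.LT

open Pool.Agent.Helper34.LT Pool.Agent.Helper65.LT Finset Complex Filter Topology

theorem P13a_im {l : ℂ} (h0 : 0 < l.im) (h1 : l.im < Real.pi) : 0 < (exp l).im := by
  rw [Complex.exp_im]
  exact mul_pos (Real.exp_pos _) (Real.sin_pos_of_pos_of_lt_pi h0 h1)

theorem P13a_cpow {l : ℂ} (h0 : 0 < l.im) (h1 : l.im < Real.pi) (c : ℂ) :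
    exp l ^ c = exp (l * c) := by
  rw [Complex.cpow_def_of_ne_zero (Complex.exp_ne_zero l),
    Complex.log_exp (by linarith [Real.pi_pos]) h1.le]

theorem P13a_pow {q : ℕ} (hq : q ≠ 0) (l : ℂ) : exp (-(l / q)) ^ q = (exp l)⁻¹ := by
  have hq' : (q : ℂ) ≠ 0 := Nat.cast_ne_zero.2 hq
  rw [← Complex.exp_nat_mul, ← Complex.exp_neg]
  congr 1
  field_simp

theorem P13a_zpow (q : ℕ) (l : ℂ) (n : ℤ) : exp (-(l / q)) ^ n = exp (l * (-(n : ℂ) / q)) := by
  rw [← Complex.exp_int_mul]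
  congr 1
  ring

theorem Gh_eq' {q a b u : ℕ} (hq : q ≠ 0) {l : ℂ} (h0 : 0 < l.im) (h1 : l.im < Real.pi) :
    Gh (al q a u) (al q b u) (exp l) =
      exp (-(l / q)) ^ (-(ke q a b u)) * gam (al q a u) (al q b u) (exp (-(l / q)) ^ q) := by
  have hq' : (q : ℂ) ≠ 0 := Nat.cast_ne_zero.2 hq
  unfold Gh
  rw [P13a_cpow h0 h1, P13a_pow hq, P13a_zpow]
  congr 2
  unfold ke Nk al
  generalize (u * a) % q = A
  generalize (u * b) % q = B
  push_cast
  field_simp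

theorem w0_eq' {q a b k : ℕ} (hq : q ≠ 0) {l : ℂ} (h0 : 0 < l.im) (h1 : l.im < Real.pi) :
    exp l ^ (al q a k : ℂ) * (1 - exp l) ^ (al q b k : ℂ) =
      exp (-(Real.pi * I * (al q b k : ℂ))) * w0 q a b k (exp (-(l / q))) := by
  have hq' : (q : ℂ) ≠ 0 := Nat.cast_ne_zero.2 hq
  unfold w0
  rw [one_sub_cpow_pos (P13a_im h0 h1), P13a_cpow h0 h1, P13a_cpow h0 h1, P13a_pow hq, P13a_zpow]
  have h2 : exp (l * (-((-(Nk q a b k : ℤ) : ℤ) : ℂ) / q)) =
      exp (l * (al q a k : ℂ)) * exp (l * (al q b k : ℂ)) := by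
    rw [← Complex.exp_add]
    congr 1
    unfold Nk al
    generalize (k * a) % q = A
    generalize (k * b) % q = B
    push_cast
    field_simp
  rw [h2]
  ring

end Pool.Agent.Helper60.LT
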