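import Pool.Agent.Helper65.LT.Pc

/-!
PROJECT LT (MP_274814), block F4-F6, piece P16a: enumeration of the semigroup (for `q` coprime to `a + b`).
-/

namespace Pool.Agent.Helper60.LT

open Pool.Agent.Helper34.LT Pool.Agent.Helper65.LT Finset Complex Filter Topology

theorem P16a_Nk_lt {q : ℕ} (a b k : ℕ) (hq : 0 < q) : Nk q a b k < 2 * q := by
  unfold Nk
  have h1 := Nat.mod_lt (k * a) hq
  have h2 := Nat.mod_lt (k * b) hq
  omega

theorem P16a_inf {q : ℕ} (a b : ℕ) (hq : 0 < q) : (setOf (sg q a b)).Infinite := by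
  refine Set.infinite_of_injective_forall_mem (f := fun n : ℕ => n + 2 * q)
    (fun x y h => by simpa using h) fun n => ?_
  show Nk q a b (cls q a b (n + 2 * q)) ≤ n + 2 * q
  have := P16a_Nk_lt (q := q) a b (cls q a b (n + 2 * q)) hq
  omega

theorem P16a_nn {q : ℕ} (a b : ℕ) (hq : 0 < q) (i : ℕ) : sg q a b (nn q a b i) :=
  Nat.nth_mem_of_infinite (P16a_inf a b hq) i

theorem P16a_le {q : ℕ} (a b : ℕ) (hq : 0 < q) (i : ℕ) : i ≤ nn q a b i :=
  (Nat.nth_strictMono (P16a_inf a b hq)).le_apply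

theorem P16a_cast (q a b k : ℕ) : ((Nk q a b k : ℕ) : ZMod q) = (k : ZMod q) * ((a + b : ℕ) : ZMod q) := by
  unfold Nk
  rw [Nat.cast_add, ZMod.natCast_mod, ZMod.natCast_mod]
  push_cast
  ring

theorem P16a_inv {q a b : ℕ} (hc : (a + b).Coprime q) :
    ((a + b : ℕ) : ZMod q) * ((a + b : ℕ) : ZMod q)⁻¹ = 1 :=
  ZMod.coe_mul_inv_eq_one (a + b) hc

theorem P16a_cls_cast {q a b : ℕ} (hq : 0 < q) (n : ℕ) :
    ((cls q a b n : ℕ) : ZMod q) = (n : ZMod q) * ((a + b : ℕ) : ZMod q)⁻¹ := by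
  haveI : NeZero q := ⟨hq.ne'⟩
  unfold cls
  rw [ZMod.natCast_zmod_val]

theorem P16a_mod {q a b : ℕ} (hq : 0 < q) (hc : (a + b).Coprime q) (n : ℕ) :
    ((Nk q a b (cls q a b n) : ℕ) : ZMod q) = (n : ZMod q) := by
  rw [P16a_cast, P16a_cls_cast hq, mul_assoc, mul_comm (((a + b : ℕ) : ZMod q)⁻¹), P16a_inv hc,
    mul_one]

theorem P16a_cls_lt {q : ℕ} (a b : ℕ) (hq : 0 < q) (n : ℕ) : cls q a b n < q := by
  haveI : NeZero q := ⟨hq.ne'⟩
  exact ZMod.val_lt _

theorem P16a_cls {q a b : ℕ} (hc : (a + b).Coprime q) {k : ℕ} (hk : k < q) (e : ℕ) :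
    cls q a b (Nk q a b k + q * e) = k := by
  have h1 : ((Nk q a b k + q * e : ℕ) : ZMod q) = (k : ZMod q) * ((a + b : ℕ) : ZMod q) := by
    rw [Nat.cast_add, P16a_cast, Nat.cast_mul, ZMod.natCast_self, zero_mul, add_zero]
  unfold cls
  rw [h1, mul_assoc, P16a_inv hc, mul_one, ZMod.val_natCast_of_lt hk]

theorem P16a_eq {q a b : ℕ} (hq : 0 < q) (hc : (a + b).Coprime q) {n : ℕ} (hn : sg q a b n) :
    n = Nk q a b (cls q a b n) + q * ((n - Nk q a b (cls q a b n)) / q) := by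
  have hn' : Nk q a b (cls q a b n) ≤ n := hn
  have h1 : Nk q a b (cls q a b n) ≡ n [MOD q] := (ZMod.natCast_eq_natCast_iff _ _ q).1 (P16a_mod hq hc n)
  have h2 : q ∣ n - Nk q a b (cls q a b n) := (Nat.modEq_iff_dvd' hn').1 h1
  rw [Nat.mul_div_cancel' h2]
  omega

theorem P16a_idx {q a b : ℕ} (hq : 0 < q) (hc : (a + b).Coprime q) :
    ∃ f : ℕ ≃ Fin q × ℕ, ∀ i, cls q a b (nn q a b i) = (f i).1 ∧
      nn q a b i = Nk q a b (f i).1 + q * (f i).2 := by
  classical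
  let g : ℕ → Fin q × ℕ := fun i => (⟨cls q a b (nn q a b i), P16a_cls_lt a b hq _⟩,
    (nn q a b i - Nk q a b (cls q a b (nn q a b i))) / q)
  have hg : ∀ i, nn q a b i = Nk q a b (g i).1 + q * (g i).2 := fun i =>
    P16a_eq hq hc (P16a_nn a b hq i)
  have hinj : Function.Injective g := by
    intro i j hij
    have h1 : nn q a b i = nn q a b j := by rw [hg i, hg j, hij]
    exact (Nat.nth_strictMono (P16a_inf a b hq)).injective h1
  have hsurj : Function.Surjective g := by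
    rintro ⟨k, e⟩
    have hcl : cls q a b (Nk q a b k + q * e) = k := P16a_cls hc k.2 e
    have hsg : sg q a b (Nk q a b k + q * e) := by
      show Nk q a b (cls q a b (Nk q a b k + q * e)) ≤ _
      rw [hcl]
      omega
    refine ⟨Nat.count (sg q a b) (Nk q a b k + q * e), ?_⟩
    have hnn : nn q a b (Nat.count (sg q a b) (Nk q a b k + q * e)) = Nk q a b k + q * e :=
      Nat.nth_count hsg
    have h2 : g (Nat.count (sg q a b) (Nk q a b k + q * e)) =
        (⟨cls q a b (Nk q a b k + q * e), P16a_cls_lt a b hq _⟩,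
          (Nk q a b k + q * e - Nk q a b (cls q a b (Nk q a b k + q * e))) / q) := by
      show ((⟨cls q a b (nn q a b _), _⟩, _) : Fin q × ℕ) = _
      simp only [hnn]
    rw [h2]
    refine Prod.ext (Fin.ext hcl) ?_
    show (Nk q a b k + q * e - Nk q a b (cls q a b (Nk q a b k + q * e))) / q = e
    rw [hcl, Nat.add_sub_cancel_left, Nat.mul_div_cancel_left e hq]
  exact ⟨Equiv.ofBijective g ⟨hinj, hsurj⟩, fun i => ⟨rfl, hg i⟩⟩

theorem P16a_coprime {q a b : ℕ} (hq : q.Prime) (hab : ¬ q ∣ a + b) : (a + b).Coprime q :=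
  Nat.Coprime.symm ((Nat.Prime.coprime_iff_not_dvd hq).2 hab)

theorem nn_sg' {q a b : ℕ} (hq : q.Prime) (_hab : ¬ q ∣ a + b) (i : ℕ) : sg q a b (nn q a b i) :=
  P16a_nn a b hq.pos i

theorem exists_idx' {q a b : ℕ} (hq : q.Prime) (hab : ¬ q ∣ a + b) :
    ∃ f : ℕ ≃ Fin q × ℕ, ∀ i, cls q a b (nn q a b i) = (f i).1 ∧
      nn q a b i = Nk q a b (f i).1 + q * (f i).2 :=
  P16a_idx hq.pos (P16a_coprime hq hab)

theorem le_nn' {q a b : ℕ} (hq : q.Prime) (_hab : ¬ q ∣ a + b) (i : ℕ) : i ≤ nn q a b i :=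
  P16a_le a b hq.pos i

end Pool.Agent.Helper60.LT
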