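import Pool.Agent.Helper65.LT.Pa

/-!
PROJECT LT (MP_274814), block F4-F6, piece P6: constants at infinity.
-/

namespace Pool.Agent.Helper60.LT

open Pool.Agent.Helper34.LT Pool.Agent.Helper65.LT Finset Complex Filter Topology

theorem P6_conn_up : IsPreconnected {x : ℂ | 0 < x.im ∧ 1 < ‖x‖} := by
  have hset : {x : ℂ | 0 < x.im ∧ 1 < ‖x‖} =
      Complex.exp '' {z : ℂ | 0 < z.re ∧ 0 < z.im ∧ z.im < Real.pi} := by
    ext x
    constructor
    · rintro ⟨h1, h2⟩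
      have hx0 : x ≠ 0 := by
        rintro rfl
        simp at h1
      refine ⟨Complex.log x, ⟨?_, ?_, ?_⟩, Complex.exp_log hx0⟩
      · rw [Complex.log_re]
        exact Real.log_pos h2
      · rw [Complex.log_im]
        have h3 : 0 ≤ x.arg := Complex.arg_nonneg_iff.2 h1.le
        refine lt_of_le_of_ne h3 fun h4 => ?_
        have := (Complex.arg_eq_zero_iff.1 h4.symm).2
        linarith
      · rw [Complex.log_im]
        exact Complex.arg_lt_pi_iff.2 (Or.inr h1.ne')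
    · rintro ⟨z, ⟨h1, h2, h3⟩, rfl⟩
      refine ⟨?_, ?_⟩
      · rw [Complex.exp_im]
        exact mul_pos (Real.exp_pos _) (Real.sin_pos_of_pos_of_lt_pi h2 h3)
      · rw [Complex.norm_exp]
        exact Real.one_lt_exp_iff.2 h1
  rw [hset]
  refine IsPreconnected.image ?_ _ Complex.continuous_exp.continuousOn
  apply Convex.isPreconnected
  have hc : {z : ℂ | 0 < z.re ∧ 0 < z.im ∧ z.im < Real.pi} =
      {z : ℂ | 0 < z.re} ∩ ({z : ℂ | 0 < z.im} ∩ {z : ℂ | z.im < Real.pi}) := rfl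
  rw [hc]
  exact (convex_halfSpace_re_gt 0).inter ((convex_halfSpace_im_gt 0).inter
    (convex_halfSpace_im_lt Real.pi))

theorem P6_conn_down : IsPreconnected {x : ℂ | x.im < 0 ∧ 1 < ‖x‖} := by
  have hset : {x : ℂ | x.im < 0 ∧ 1 < ‖x‖} =
      (fun x : ℂ => -x) '' {x : ℂ | 0 < x.im ∧ 1 < ‖x‖} := by
    ext x
    constructor
    · rintro ⟨h1, h2⟩
      exact ⟨-x, ⟨by rw [neg_im]; linarith, by rw [norm_neg]; exact h2⟩, neg_neg x⟩
    · rintro ⟨z, ⟨h1, h2⟩, rfl⟩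
      exact ⟨by rw [neg_im]; linarith, by rw [norm_neg]; exact h2⟩
  rw [hset]
  exact P6_conn_up.image _ continuous_neg.continuousOn

theorem P6_open_up : IsOpen {x : ℂ | 0 < x.im ∧ 1 < ‖x‖} :=
  (isOpen_lt continuous_const Complex.continuous_im).inter
    (isOpen_lt continuous_const continuous_norm)

theorem P6_open_down : IsOpen {x : ℂ | x.im < 0 ∧ 1 < ‖x‖} :=
  (isOpen_lt Complex.continuous_im continuous_const).inter
    (isOpen_lt continuous_const continuous_norm)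

theorem P6_slit {x : ℂ} (h : x.im ≠ 0) : x ∈ slitPlane ∧ x ∈ Om := by
  have h1 : x ∈ slitPlane := Or.inr h
  refine ⟨h1, h1, Or.inr ?_⟩
  rw [sub_im, one_im, zero_sub]
  exact neg_ne_zero.2 h

theorem P6_core {α β : ℝ} (hα : 0 < α) (hab : ∀ p : ℕ, α + β - 1 ≠ p) {U : Set ℂ}
    (hU : IsOpen U) (hU' : IsPreconnected U) (him : ∀ x ∈ U, x.im ≠ 0) (hn : ∀ x ∈ U, 1 < ‖x‖)
    (c : ℂ) (hc : ∀ x ∈ U, (1 - x) ^ ((β:ℂ) - 1) = c * (x ^ ((β:ℂ) - 1) * (1 - x⁻¹) ^ ((β:ℂ) - 1)))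
    (x₀ : ℂ) (hx₀ : x₀ ∈ U) :
    ∃ A : ℂ, ∀ x ∈ U, x ^ (α:ℂ) * gg α β x = A + c * Gh α β x := by
  have hd : ∀ x ∈ U, HasDerivAt (fun x => x ^ (α:ℂ) * gg α β x - c * Gh α β x) 0 x := by
    intro x hx
    obtain ⟨h1, h2⟩ := P6_slit (him x hx)
    have h3 := (F_hasDerivAt (β := β) hα h2).sub ((Gh_hasDerivAt hab h1 (hn x hx)).const_mul c)
    refine h3.congr_deriv ?_
    have hx0 : x ≠ 0 := slitPlane_ne_zero h1
    rw [hc x hx]
    have h4 : x ^ ((α:ℂ) + β - 2) = x ^ ((α:ℂ) - 1) * x ^ ((β:ℂ) - 1) := by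
      rw [← Complex.cpow_add _ _ hx0]
      congr 1
      ring
    rw [h4]
    ring
  refine ⟨x₀ ^ (α:ℂ) * gg α β x₀ - c * Gh α β x₀, fun x hx => ?_⟩
  have h5 := hU.is_const_of_deriv_eq_zero hU'
    (f := fun x => x ^ (α:ℂ) * gg α β x - c * Gh α β x)
    (fun y hy => (hd y hy).differentiableAt.differentiableWithinAt)
    (fun y hy => (hd y hy).deriv) hx hx₀
  rw [← h5]
  ring

theorem inf_up' {α β : ℝ} (hα : 0 < α) (hab : ∀ p : ℕ, α + β - 1 ≠ p) :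
    ∃ A : ℂ, ∀ x : ℂ, 0 < x.im → 1 < ‖x‖ →
      x ^ (α:ℂ) * gg α β x = A + exp (-(Real.pi * I * ((β:ℂ) - 1))) * Gh α β x := by
  obtain ⟨A, hA⟩ := P6_core hα hab P6_open_up P6_conn_up (fun x hx => hx.1.ne') (fun x hx => hx.2)
    (exp (-(Real.pi * I * ((β:ℂ) - 1)))) (fun x hx => one_sub_cpow_pos hx.1 _) (2 * I)
    (by
      constructor
      · simp
      · rw [norm_mul, Complex.norm_I, mul_one, Complex.norm_ofNat]
        norm_num)
  exact ⟨A, fun x h1 h2 => hA x ⟨h1, h2⟩⟩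

theorem inf_down' {α β : ℝ} (hα : 0 < α) (hab : ∀ p : ℕ, α + β - 1 ≠ p) :
    ∃ A : ℂ, ∀ x : ℂ, x.im < 0 → 1 < ‖x‖ →
      x ^ (α:ℂ) * gg α β x = A + exp (Real.pi * I * ((β:ℂ) - 1)) * Gh α β x := by
  obtain ⟨A, hA⟩ := P6_core hα hab P6_open_down P6_conn_down (fun x hx => hx.1.ne)
    (fun x hx => hx.2)
    (exp (Real.pi * I * ((β:ℂ) - 1))) (fun x hx => one_sub_cpow_neg hx.1 _) (-(2 * I))
    (by
      constructor
      · simp
      · rw [norm_neg, norm_mul, Complex.norm_I, mul_one, Complex.norm_ofNat]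
        norm_num)
  exact ⟨A, fun x h1 h2 => hA x ⟨h1, h2⟩⟩

end Pool.Agent.Helper60.LT
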